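import Pool.Agent.Run7.h803.Fin

/-!
# MP_baea4e_nt: three-valued Weil spectra in degree a power of two, characteristic p > 3

Partial answer to Q1: degrees 1, 2 and 4 are excluded, and in degree `2 ^ k` the possible values
are restricted by an inequality which is cubic in the difference of the two nonzero values.
-/

namespace Pool.Agent.Results.MP_baea4e_nt.SubfieldLineBound

/-- The canonical additive character `μ(x) = exp(2πi Tr(x)/p)` of a field over `F_p`. -/
noncomputable def mu (p : ℕ) {L : Type*} [Field L] [Algebra (ZMod p) L] (x : L) : ℂ :=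
  Complex.exp (2 * Real.pi * Complex.I * ((Algebra.trace (ZMod p) L x).val : ℂ) / (p : ℂ))

/-- The Weil sum `W_{L,s}(a) = ∑_x μ(x ^ s - a x)`. -/
noncomputable def weil (p : ℕ) {L : Type*} [Field L] [Fintype L] [Algebra (ZMod p) L] (s : ℕ)
    (a : L) : ℂ :=
  ∑ x : L, mu p (x ^ s - a * x)

/-- The set of values of the Weil sum on `L^*`. -/
noncomputable def values (p : ℕ) (L : Type*) [Field L] [Fintype L] [Algebra (ZMod p) L] (s : ℕ) :
    Set ℂ :=
  {z | ∃ a : L, a ≠ 0 ∧ weil p s a = z}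

theorem mu_eq (p : ℕ) [Fact p.Prime] {L : Type*} [Field L] [Algebra (ZMod p) L] (x : L) :
    mu p x = Run7.h803.can p L x := by
  unfold mu Run7.h803.can
  rw [Run7.h803.lift_apply]
  have h := ZMod.stdAddChar_coe (N := p) ((Algebra.trace (ZMod p) L x).val : ℤ)
  rw [Int.cast_natCast, ZMod.natCast_zmod_val] at h
  rw [h]
  push_cast
  rfl

/-- **Main result.** Let `p > 3` be a prime, `L` a finite field of degree `2 ^ k` over `F_p`, and
`s` coprime to `|L| - 1`. If `s` is three-valued then `k ≥ 3` and, with `r = √|L|`, the values are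
`0, rα, -rβ` for positive integers `β < α` prime to `p` with `α + β = p ^ e`, `e + f = 2 ^ (k-1)`,
`1 ≤ e ≤ f`, `α ∣ p ^ f + 1`, `β ∣ p ^ f - 1` and
`αβ (1 + (r + 1)(p ^ e - 1)) ≤ r (r + β - α)`. -/
theorem result (p : ℕ) [Fact p.Prime] (hp : 3 < p) (L : Type*) [Field L] [Fintype L]
    [Algebra (ZMod p) L] (k : ℕ) (hL : Module.finrank (ZMod p) L = 2 ^ k) (s : ℕ)
    (hs : Nat.gcd s (Fintype.card L - 1) = 1) (h3 : (values p L s).ncard = 3) :
    3 ≤ k ∧ ∃ r α β e f : ℕ, r ^ 2 = Fintype.card L ∧ values p L s = {0, (r * α : ℂ), (-(r * β) : ℂ)} ∧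
      0 < β ∧ β < α ∧ α + β = p ^ e ∧ ¬ p ∣ α ∧ ¬ p ∣ β ∧ 1 ≤ e ∧ e ≤ f ∧ e + f = 2 ^ (k - 1) ∧
      α ∣ p ^ f + 1 ∧ β ∣ p ^ f - 1 ∧
      (α : ℤ) * β * (1 + ((r : ℤ) + 1) * ((p : ℤ) ^ e - 1)) ≤ (r : ℤ) * (r + β - α) := by
  have hp5 : 5 ≤ p := by
    have hpp : p.Prime := Fact.out
    by_contra hlt
    have h4 : p = 4 := by omega
    rw [h4] at hpp
    revert hpp
    norm_num
  have hval : values p L s =
      Set.range fun a : Lˣ => Run7.h803.W (Run7.h803.can p L) s (a : L) := by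
    have hw : ∀ a : L, weil p s a = Run7.h803.W (Run7.h803.can p L) s a := by
      intro a
      unfold weil Run7.h803.W
      exact Finset.sum_congr rfl fun x _ => mu_eq p _
    ext z
    constructor
    · rintro ⟨a, ha, rfl⟩
      exact ⟨Units.mk0 a ha, (hw a).symm⟩
    · rintro ⟨a, rfl⟩
      exact ⟨(a : L), a.ne_zero, hw _⟩
  rw [hval] at h3
  obtain ⟨l, e, f, α, β, hk, he1, hef, hefl, hβ, hβα, hsum, hpα, hpβ, hα', hβ', hset, hin⟩ :=
    Run7.h803.three_structure hp5 L hL hs h3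
  have hkl : k - 1 = l := by omega
  have hcard : Fintype.card L = p ^ (2 ^ k) := by
    rw [← FiniteField.pow_finrank_eq_card p L, hL]
  refine ⟨?_, p ^ (2 ^ l), α, β, e, f, ?_, ?_, hβ, hβα, hsum, hpα, hpβ, he1, hef, ?_, hα', hβ', ?_⟩
  · by_contra hk3
    have hl : l = 0 ∨ l = 1 := by omega
    rcases hl with rfl | rfl
    · omega
    · have he : e = 1 := by omega
      have hf : f = 1 := by omega
      subst he hf
      exact Run7.h803.no_deg_four hp5 hβ hβα hsum hα' hin
  · rw [hcard, ← pow_mul, hk]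
    congr 1
  · rw [hval, hset]
    push_cast
    rfl
  · rw [hkl]; exact hefl
  · push_cast
    exact hin

end Pool.Agent.Results.MP_baea4e_nt.SubfieldLineBound
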